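import Pool.Agent.E8helper49.DD.Stm

/-! Project DD: assembly, homogeneous part. -/

open Set Filter Topology

namespace Pool.Agent.E8helper49.DD

/-- all polytopes represented by `h` and `h'` are linked by chains, in both directions -/
def Link (h h' : Fin 12 → Fin 4 → ℝ) : Prop :=
  ∀ P P', Rep h P → Rep h' P' → PN P P' ∧ PN P' P

theorem rep_dod (hP : S_PRES) {h : Fin 12 → Fin 4 → ℝ} {P : Set (Fin 3 → ℝ)} (hr : Rep h P) :
    IsDodecahedron P := by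
  obtain ⟨e, A, hg, hA, he, rfl⟩ := hr
  obtain ⟨v, hv⟩ := hP h e A hg hA he
  exact ⟨v, _, _, hv⟩

theorem rep_exists (hF : S_FRAME) {h : Fin 12 → Fin 4 → ℝ} {e : Fin 4 → ℝ} (hg : Good h e) :
    ∃ P, Rep h P := by
  obtain ⟨A, hA, he⟩ := hF h e hg
  exact ⟨_, e, A, hg, hA, he, rfl⟩

theorem pn_proj (hP : S_PRES) (hJ : S_PROJ) {h : Fin 12 → Fin 4 → ℝ} {P P' : Set (Fin 3 → ℝ)}
    (hr : Rep h P) (hr' : Rep h P') : PN P P' :=
  Relation.ReflTransGen.single ⟨rep_dod hP hr, rep_dod hP hr', Or.inl (hJ h P P' hr hr')⟩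

theorem Link.symm {h h' : Fin 12 → Fin 4 → ℝ} (hl : Link h h') : Link h' h :=
  fun P P' hr hr' => (hl P' P hr' hr).symm

theorem Link.trans {h h' h'' : Fin 12 → Fin 4 → ℝ} (hF : S_FRAME) {e : Fin 4 → ℝ}
    (hg : Good h' e) (hl : Link h h') (hl' : Link h' h'') : Link h h'' := by
  intro P P'' hr hr''
  obtain ⟨P', hr'⟩ := rep_exists hF hg
  obtain ⟨h1, h2⟩ := hl P P' hr hr'
  obtain ⟨h3, h4⟩ := hl' P' P'' hr' hr''
  exact ⟨h1.trans h3, h4.trans h2⟩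

theorem link_refl (hP : S_PRES) (hJ : S_PROJ) (h : Fin 12 → Fin 4 → ℝ) : Link h h :=
  fun _ _ hr hr' => ⟨pn_proj hP hJ hr hr', pn_proj hP hJ hr' hr⟩

theorem e4_castSucc (j : Fin 3) : e4 j.castSucc = 0 := by
  fin_cases j <;> rfl

theorem link_step (hF : S_FRAME) (hP : S_PRES) (hJ : S_PROJ) {k k' : Fin 12 → Fin 4 → ℝ}
    {e : Fin 4 → ℝ} {t : Fin 12 → ℝ} (hk : Good k e) (hk' : Good k' e)
    (hkk : ∀ i, k' i = k i + t i • e) : Link k k' := by
  obtain ⟨A, hA, he⟩ := hF k e hk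
  obtain ⟨v, hv⟩ := hP k e A hk hA he
  obtain ⟨v', hv'⟩ := hP k' e A hk' hA he
  have hn : (fun i (j : Fin 3) => - Matrix.vecMul (k' i) A j.castSucc) =
      fun i (j : Fin 3) => - Matrix.vecMul (k i) A j.castSucc := by
    funext i j
    rw [hkk i, Matrix.add_vecMul, Matrix.smul_vecMul, he]
    simp [e4_castSucc]
  rw [hn] at hv'
  have r0 : Rep k (Poly fun i => Matrix.vecMul (k i) A) := ⟨e, A, hk, hA, he, rfl⟩
  have r1 : Rep k' (Poly fun i => Matrix.vecMul (k' i) A) := ⟨e, A, hk', hA, he, rfl⟩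
  have s1 : PN (Poly fun i => Matrix.vecMul (k i) A) (Poly fun i => Matrix.vecMul (k' i) A) :=
    Relation.ReflTransGen.single ⟨rep_dod hP r0, rep_dod hP r1, Or.inr ⟨v, _, _, v', _, hv, hv'⟩⟩
  have s2 : PN (Poly fun i => Matrix.vecMul (k' i) A) (Poly fun i => Matrix.vecMul (k i) A) :=
    Relation.ReflTransGen.single ⟨rep_dod hP r1, rep_dod hP r0, Or.inr ⟨v', _, _, v, _, hv', hv⟩⟩
  intro P P' hr hr'
  exact ⟨((pn_proj hP hJ hr r0).trans s1).trans (pn_proj hP hJ r1 hr'),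
    ((pn_proj hP hJ hr' r1).trans s2).trans (pn_proj hP hJ r0 hr)⟩

theorem link_open (hF : S_FRAME) (hP : S_PRES) (hJ : S_PROJ) (hO : S_OPEN)
    {h : Fin 12 → Fin 4 → ℝ} {e : Fin 4 → ℝ} (hg : Good h e) :
    ∃ δ > 0, ∀ h' : Fin 12 → Fin 4 → ℝ, (∀ i j, |h' i j - h i j| < δ) → Link h h' := by
  obtain ⟨δ, hδ, hh⟩ := hO h e hg
  refine ⟨δ, hδ, fun h' hc => ?_⟩
  obtain ⟨k, f, t, hk0, hk4, hm⟩ := hh h' hc
  have h01 := hm 0
  have h12 := hm 1
  have h23 := hm 2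
  have h34 := hm 3
  have l01 : Link (k 0) (k 1) := link_step hF hP hJ h01.1 h01.2.1 h01.2.2
  have l12 : Link (k 1) (k 2) := link_step hF hP hJ h12.1 h12.2.1 h12.2.2
  have l23 : Link (k 2) (k 3) := link_step hF hP hJ h23.1 h23.2.1 h23.2.2
  have l34 : Link (k 3) (k 4) := link_step hF hP hJ h34.1 h34.2.1 h34.2.2
  have := (((l01.trans hF h12.1 l12).trans hF h23.1 l23).trans hF h34.1 l34)
  rwa [hk0, hk4] at this

/-- a continuous path of good configurations links its endpoints -/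
theorem link_path (hF : S_FRAME) (hP : S_PRES) (hJ : S_PROJ) (hO : S_OPEN)
    (R : ℝ → Fin 12 → Fin 4 → ℝ) (hR : ∀ i j, ContinuousOn (fun t => R t i j) (Icc 0 1))
    (hg : ∀ t ∈ Icc (0:ℝ) 1, ∃ e, Good (R t) e) : Link (R 0) (R 1) := by
  have hc : IsPreconnected (Icc (0:ℝ) 1) := isPreconnected_Icc
  refine hc.induction₂ (fun s t => Link (R s) (R t)) ?_ ?_ ?_ (by simp) (by simp)
  · intro x hx
    obtain ⟨e, he⟩ := hg x hx
    obtain ⟨δ, hδ, hh⟩ := link_open hF hP hJ hO he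
    have h1 : ∀ᶠ y in 𝓝[Icc 0 1] x, ∀ i j, |R y i j - R x i j| < δ := by
      rw [eventually_all]
      intro i
      rw [eventually_all]
      intro j
      have h2 : Tendsto (fun t => R t i j) (𝓝[Icc 0 1] x) (𝓝 (R x i j)) := hR i j x hx
      have h3 := (Metric.tendsto_nhds.1 h2) δ hδ
      simpa [Real.dist_eq] using h3
    exact h1.mono fun y hy => hh _ hy
  · intro x y z _ hy _ h1 h2
    obtain ⟨e, he⟩ := hg y hy
    exact h1.trans hF he h2
  · intro x y _ _ h1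
    exact h1.symm

end Pool.Agent.E8helper49.DD
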