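import Pool.Agent.E8helper49.DD.Asm1

/-! Project DD: assembly, planar part and final theorem. -/

open Set Filter Topology

namespace Pool.Agent.E8helper49.DD

theorem vol_cont {x y z : ℝ → Fin 12 → ℝ} {S : Set ℝ}
    (hx : ∀ v, ContinuousOn (fun t => x t v) S) (hy : ∀ v, ContinuousOn (fun t => y t v) S)
    (hz : ∀ v, ContinuousOn (fun t => z t v) S) (a b c d : Fin 12) :
    ContinuousOn (fun t => vol (x t) (y t) (z t) a b c d) S := by
  unfold vol
  have := hx a; have := hx b; have := hx c; have := hx d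
  have := hy a; have := hy b; have := hy c; have := hy d
  have := hz a; have := hz b; have := hz c; have := hz d
  fun_prop

theorem vol_self (x y z : Fin 12 → ℝ) (a b c : Fin 12) :
    vol x y z a b c a = 0 ∧ vol x y z a b c b = 0 ∧ vol x y z a b c c = 0 := by
  unfold vol
  refine ⟨by ring, by ring, by ring⟩

theorem vol_face_nonneg {x y z : Fin 12 → ℝ} (hC : Convex' x y z) {T : Fin 20} (hT : T ≠ 0)
    (l : Fin 12) : 0 ≤ vol x y z (face T 0) (face T 1) (face T 2) l := by
  by_cases h : ∀ r, face T r ≠ l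
  · exact (hC T hT l h).le
  · push Not at h
    obtain ⟨r, rfl⟩ := h
    have := vol_self x y z (face T 0) (face T 1) (face T 2)
    fin_cases r
    · exact this.1.ge
    · exact this.2.1.ge
    · exact this.2.2.ge

/-- convexity propagates along the path -/
theorem convex_path (hL : S_LIM) (hD : S_DISJ) (w : ℝ → Fin 12 → Fin 12 → ℝ)
    (x y z : ℝ → Fin 12 → ℝ)
    (hx : ∀ v, ContinuousOn (fun t => x t v) (Icc 0 1))
    (hy : ∀ v, ContinuousOn (fun t => y t v) (Icc 0 1))
    (hz : ∀ v, ContinuousOn (fun t => z t v) (Icc 0 1))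
    (h : ∀ t ∈ Icc (0:ℝ) 1, Weights (w t) ∧ Outer (x t) (y t) ∧ Pos (x t) (y t) ∧
      Harm (w t) (x t) ∧ Harm (w t) (y t) ∧
      (∀ v, 0 ≤ x t v ∧ 0 ≤ y t v ∧ x t v + y t v ≤ 1) ∧ Jump (w t) (x t) (y t) (z t))
    (h0 : Convex' (x 0) (y 0) (z 0)) :
    ∀ t ∈ Icc (0:ℝ) 1, Convex' (x t) (y t) (z t) := by
  have key : ∀ s ∈ Icc (0:ℝ) 1, ∀ t ∈ Icc (0:ℝ) 1,
      (Convex' (x s) (y s) (z s) ↔ Convex' (x t) (y t) (z t)) := by
    intro s hs t ht
    have hc : IsPreconnected (Icc (0:ℝ) 1) := isPreconnected_Icc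
    refine hc.induction₂
      (fun s t => (Convex' (x s) (y s) (z s) ↔ Convex' (x t) (y t) (z t))) ?_ ?_ ?_ hs ht
    · intro u hu
      by_cases hC : Convex' (x u) (y u) (z u)
      · have h1 : ∀ᶠ r in 𝓝[Icc 0 1] u, ∀ T, T ≠ 0 → ∀ l, (∀ r, face T r ≠ l) →
            0 < vol (x r) (y r) (z r) (face T 0) (face T 1) (face T 2) l := by
          rw [eventually_all]
          intro T
          by_cases hT : T = 0
          · exact Eventually.of_forall fun _ h => absurd hT h
          suffices hh : ∀ᶠ r in 𝓝[Icc 0 1] u, ∀ l, (∀ r, face T r ≠ l) →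
              0 < vol (x r) (y r) (z r) (face T 0) (face T 1) (face T 2) l from
            hh.mono fun _ h _ => h
          rw [eventually_all]
          intro l
          by_cases hl : ∀ r, face T r ≠ l
          · have h2 := vol_cont hx hy hz (face T 0) (face T 1) (face T 2) l u hu
            have h3 := h2.eventually (lt_mem_nhds (hC T hT l hl))
            exact h3.mono fun _ h _ => h
          · exact Eventually.of_forall fun _ h => absurd h hl
        exact h1.mono fun r hr => ⟨fun _ => hr, fun _ => hC⟩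
      · have h1 : ∀ᶠ r in 𝓝[Icc 0 1] u, ¬ Convex' (x r) (y r) (z r) := by
          by_contra hcon
          rw [not_eventually] at hcon
          have hfr : ∃ᶠ r in 𝓝[Icc 0 1] u, Convex' (x r) (y r) (z r) :=
            hcon.mono fun _ h => not_not.1 h
          refine hC (hL (w u) (x u) (y u) (z u) (h u hu).1 (h u hu).2.1 (h u hu).2.2.1
            (h u hu).2.2.2.1 (h u hu).2.2.2.2.1 (h u hu).2.2.2.2.2.1 (h u hu).2.2.2.2.2.2 ?_ ?_)
          · intro T hT l
            by_contra hneg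
            push Not at hneg
            have h2 := vol_cont hx hy hz (face T 0) (face T 1) (face T 2) l u hu
            have h3 := h2.eventually (gt_mem_nhds hneg)
            obtain ⟨r, hr, hr'⟩ := (hfr.and_eventually h3).exists
            exact absurd (vol_face_nonneg hr hT l) (not_le.2 hr')
          · intro T T' hT hT' hne X Y hX hX'
            have h2 : ∀ F : Fin 20, InTri (x u) (y u) F X Y →
                ∀ᶠ r in 𝓝[Icc 0 1] u, InTri (x r) (y r) F X Y := by
              intro F hF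
              unfold InTri
              rw [eventually_all]
              intro j
              have hc : ContinuousOn (fun t => (x t (face F (j+1)) - x t (face F j)) *
                  (Y - y t (face F j)) - (X - x t (face F j)) *
                    (y t (face F (j+1)) - y t (face F j))) (Icc 0 1) := by
                have := hx (face F (j+1)); have := hx (face F j)
                have := hy (face F (j+1)); have := hy (face F j)
                fun_prop
              exact (hc u hu).eventually (lt_mem_nhds (hF j))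
            have hI : ∀ᶠ r in 𝓝[Icc 0 1] u, r ∈ Icc (0:ℝ) 1 := self_mem_nhdsWithin
            obtain ⟨r, hr, ⟨hr1, hr2⟩, hr3⟩ :=
              (hfr.and_eventually (((h2 T hX).and (h2 T' hX')).and hI)).exists
            exact hD (x r) (y r) (z r) (h r hr3).2.2.1 hr T T' hT hT' hne X Y hr1 hr2
        exact h1.mono fun r hr => ⟨fun h => absurd h hC, fun h => absurd h hr⟩
    · intro a b c _ _ _ h1 h2
      exact h1.trans h2
    · intro a b _ _ h1
      exact h1.symm
  intro t ht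
  exact (key 0 (by simp) t ht).1 h0

theorem bounds (hM : S_MP) {w : Fin 12 → Fin 12 → ℝ} {x y : Fin 12 → ℝ} (hw : Weights w)
    (ho : Outer x y) (hx : Harm w x) (hy : Harm w y) :
    ∀ v, 0 ≤ x v ∧ 0 ≤ y v ∧ x v + y v ≤ 1 := by
  obtain ⟨o1, o2, o3, o4, o5, o6⟩ := ho
  have hout : ∀ v : Fin 12, ¬ 3 ≤ v → v = 0 ∨ v = 1 ∨ v = 2 := by decide
  have nx : Harm w (fun v => - x v) := by
    intro v hv
    have := hx v hv
    rw [← neg_eq_zero, ← Finset.sum_neg_distrib] at this
    rw [← this]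
    exact Finset.sum_congr rfl fun i _ => by ring
  have ny : Harm w (fun v => - y v) := by
    intro v hv
    have := hy v hv
    rw [← neg_eq_zero, ← Finset.sum_neg_distrib] at this
    rw [← this]
    exact Finset.sum_congr rfl fun i _ => by ring
  have ns : Harm w (fun v => x v + y v) := by
    intro v hv
    have h1 := hx v hv
    have h2 := hy v hv
    have : (∑ i, w v (nbr v i) * (x (nbr v i) - x v)) +
      (∑ i, w v (nbr v i) * (y (nbr v i) - y v)) = 0 := by rw [h1, h2, add_zero]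
    rw [← Finset.sum_add_distrib] at this
    rw [← this]
    exact Finset.sum_congr rfl fun i _ => by ring
  intro v
  have a1 := hM w _ 0 hw nx (by
    intro u hu
    rcases hout u hu with rfl | rfl | rfl <;> simp [o1, o3, o5]) v
  have a2 := hM w _ 0 hw ny (by
    intro u hu
    rcases hout u hu with rfl | rfl | rfl <;> simp [o2, o4, o6]) v
  have a3 := hM w _ 1 hw ns (by
    intro u hu
    rcases hout u hu with rfl | rfl | rfl <;> simp [o1, o2, o3, o4, o5, o6]) v
  exact ⟨by linarith, by linarith, a3⟩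

/-- the realization space is connected: two lifted diagrams are linked -/
theorem link_lift (hF : S_FRAME) (hP : S_PRES) (hJ : S_PROJ) (hO : S_OPEN) (hM : S_MP)
    (hT : S_TUTTE) (hH : S_HARM) (hX : S_MAX) (hU : S_UNIQ) (hS : S_STRESS) (hL : S_LIM)
    (hD : S_DISJ) (hTop : S_TOP) (hLi : S_LIFT)
    {x y z x' y' z' : Fin 12 → ℝ} (ho : Outer x y) (hoz : OuterZ z) (hp : Pos x y)
    (hc : Convex' x y z) (ho' : Outer x' y') (hoz' : OuterZ z') (hp' : Pos x' y')
    (hc' : Convex' x' y' z') : Link (lift x y z) (lift x' y' z') := by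
  obtain ⟨w, hw, hwx, hwy, hwj⟩ := hS x y z hp hc
  obtain ⟨w', hw', hwx', hwy', hwj'⟩ := hS x' y' z' hp' hc'
  set W : ℝ → Fin 12 → Fin 12 → ℝ := fun t u v => (1 - t) * w u v + t * w' u v with hWdef
  have hWc : ∀ u v, ContinuousOn (fun t => W t u v) (Icc 0 1) := by
    intro u v
    simp only [hWdef]
    fun_prop
  have hWw : ∀ t ∈ Icc (0:ℝ) 1, Weights (W t) := by
    intro t ht
    refine ⟨fun u v => by simp only [hWdef]; rw [hw.1 u v, hw'.1 u v], fun v i hv => ?_⟩
    have h1 := hw.2 v i hv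
    have h2 := hw'.2 v i hv
    simp only [hWdef]
    rcases eq_or_lt_of_le ht.1 with h0 | h0
    · rw [← h0]; linarith
    · have : 0 ≤ (1 - t) * w v (nbr v i) := mul_nonneg (by linarith [ht.2]) h1.le
      have : 0 < t * w' v (nbr v i) := mul_pos h0 h2
      linarith
  obtain ⟨X, hXc, hXh⟩ := hH W hWc hWw x
  obtain ⟨Y, hYc, hYh⟩ := hH W hWc hWw y
  have hW0 : W 0 = w := by funext u v; simp [hWdef]
  have hW1 : W 1 = w' := by funext u v; simp [hWdef]
  have i0 : (0:ℝ) ∈ Icc (0:ℝ) 1 := by simp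
  have i1 : (1:ℝ) ∈ Icc (0:ℝ) 1 := by simp
  have hout : ∀ v : Fin 12, ¬ 3 ≤ v → v = 0 ∨ v = 1 ∨ v = 2 := by decide
  have hn0 : ¬ (3 : Fin 12) ≤ 0 := by decide
  have hn1 : ¬ (3 : Fin 12) ≤ 1 := by decide
  have hn2 : ¬ (3 : Fin 12) ≤ 2 := by decide
  have hX0 : x = X 0 := (hXh 0 i0).2.2 x (fun _ _ => rfl) (by rw [hW0]; exact hwx)
  have hY0 : y = Y 0 := (hYh 0 i0).2.2 y (fun _ _ => rfl) (by rw [hW0]; exact hwy)
  have hX1 : x' = X 1 := (hXh 1 i1).2.2 x' (fun v hv => by
    rcases hout v hv with rfl | rfl | rfl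
    · rw [ho.1, ho'.1]
    · rw [ho.2.2.1, ho'.2.2.1]
    · rw [ho.2.2.2.2.1, ho'.2.2.2.2.1]) (by rw [hW1]; exact hwx')
  have hY1 : y' = Y 1 := (hYh 1 i1).2.2 y' (fun v hv => by
    rcases hout v hv with rfl | rfl | rfl
    · rw [ho.2.1, ho'.2.1]
    · rw [ho.2.2.2.1, ho'.2.2.2.1]
    · rw [ho.2.2.2.2.2, ho'.2.2.2.2.2]) (by rw [hW1]; exact hwy')
  have hOut : ∀ t ∈ Icc (0:ℝ) 1, Outer (X t) (Y t) := by
    intro t ht
    have hx := (hXh t ht).1
    have hy := (hYh t ht).1
    exact ⟨by rw [hx 0 hn0, ho.1], by rw [hy 0 hn0, ho.2.1], by rw [hx 1 hn1, ho.2.2.1],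
      by rw [hy 1 hn1, ho.2.2.2.1], by rw [hx 2 hn2, ho.2.2.2.2.1],
      by rw [hy 2 hn2, ho.2.2.2.2.2]⟩
  have hPos : ∀ t ∈ Icc (0:ℝ) 1, Pos (X t) (Y t) := fun t ht =>
    hT (W t) (X t) (Y t) (hWw t ht) (hOut t ht) (hXh t ht).2.1 (hYh t ht).2.1
  obtain ⟨Z, hZc, hZh⟩ := hX W X Y hWc hXc hYc fun t ht =>
    ⟨hWw t ht, hOut t ht, hPos t ht, (hXh t ht).2.1, (hYh t ht).2.1⟩
  have hZ0 : z = Z 0 := hU w x y z (Z 0) ho hp hoz (hZh 0 i0).1 hwj (by
    have := (hZh 0 i0).2
    rwa [hW0, ← hX0, ← hY0] at this)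
  have hZ1 : z' = Z 1 := hU w' x' y' z' (Z 1) ho' hp' hoz' (hZh 1 i1).1 hwj' (by
    have := (hZh 1 i1).2
    rwa [hW1, ← hX1, ← hY1] at this)
  have hC : ∀ t ∈ Icc (0:ℝ) 1, Convex' (X t) (Y t) (Z t) :=
    convex_path hL hD W X Y Z hXc hYc hZc (fun t ht => ⟨hWw t ht, hOut t ht, hPos t ht,
      (hXh t ht).2.1, (hYh t ht).2.1, bounds hM (hWw t ht) (hOut t ht) (hXh t ht).2.1
        (hYh t ht).2.1, (hZh t ht).2⟩) (by rw [← hX0, ← hY0, ← hZ0]; exact hc)
  have hG : ∀ t ∈ Icc (0:ℝ) 1, ∃ e, Good (lift (X t) (Y t) (Z t)) e := fun t ht =>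
    hLi (X t) (Y t) (Z t) (hOut t ht) (hZh t ht).1 (hPos t ht) (hC t ht)
      (hTop (W t) (X t) (Y t) (Z t) (hWw t ht) (hOut t ht) (hPos t ht) (hXh t ht).2.1
        (hYh t ht).2.1 (hZh t ht).1 (hC t ht))
  have := link_path hF hP hJ hO (fun t => lift (X t) (Y t) (Z t)) (by
    intro i j
    have h1 := hXc i
    have h2 := hYc i
    have h3 := hZc i
    fin_cases j
    · simpa [lift] using h1
    · simpa [lift] using h2
    · simpa [lift] using (continuousOn_const : ContinuousOn (fun _ : ℝ => (1:ℝ)) (Icc 0 1))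
    · simpa [lift] using h3) hG
  rwa [← hX0, ← hY0, ← hZ0, ← hX1, ← hY1, ← hZ1] at this

theorem main (hF : S_FRAME) (hP : S_PRES) (hJ : S_PROJ) (hO : S_OPEN) (hM : S_MP)
    (hT : S_TUTTE) (hH : S_HARM) (hX : S_MAX) (hU : S_UNIQ) (hS : S_STRESS) (hL : S_LIM)
    (hD : S_DISJ) (hTop : S_TOP) (hLi : S_LIFT) (hN : S_NF) (hTr : S_TRANS) (hR : S_REP)
    (P Q : Set (Fin 3 → ℝ)) (hPd : IsDodecahedron P) (hQd : IsDodecahedron Q) : PN P Q := by
  obtain ⟨h, hr⟩ := hR P hPd
  obtain ⟨h', hr'⟩ := hR Q hQd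
  obtain ⟨e, _, hg, _⟩ := id hr
  obtain ⟨e', _, hg', _⟩ := id hr'
  obtain ⟨x, y, z, ho, hoz, hp, hc, A, s, hA, hs, hl⟩ := hN h e hg
  obtain ⟨x', y', z', ho', hoz', hp', hc', A', s', hA', hs', hl'⟩ := hN h' e' hg'
  exact (link_lift hF hP hJ hO hM hT hH hX hU hS hL hD hTop hLi ho hoz hp hc ho' hoz' hp' hc'
    P Q (hTr h _ A s hA hs hl P hr) (hTr h' _ A' s' hA' hs' hl' Q hr')).1

end Pool.Agent.E8helper49.DD
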