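import Mathlib

/-!
Project DD (MP_bfbd14_co): normal-projective uniqueness of the dodecahedron.

The twelve facets of the dodecahedron are labelled by `Fin 12` (the vertices of the icosahedron), its
twenty vertices by `Fin 20` (the triangles of the icosahedron).
-/

namespace Pool.Agent.E8helper49.DD

/-- the three facets through vertex `T` of the dodecahedron (= the `T`-th triangle of the
icosahedron), in positive cyclic order -/
def face : Fin 20 → Fin 3 → Fin 12 :=
  ![![0,1,2], ![0,2,3], ![0,3,4], ![0,4,5], ![0,5,1],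
    ![1,6,2], ![2,7,3], ![3,8,4], ![4,9,5], ![5,10,1],
    ![1,10,6], ![2,6,7], ![3,7,8], ![4,8,9], ![5,9,10],
    ![11,6,10], ![11,7,6], ![11,8,7], ![11,9,8], ![11,10,9]]

/-- the five neighbours of each vertex of the icosahedron, in positive cyclic order:
`(v, nbr v i, nbr v (i+1))` is (a rotation of) a triangle of `face` -/
def nbr : Fin 12 → Fin 5 → Fin 12 :=
  ![![1,2,3,4,5], ![0,5,10,6,2], ![0,1,6,7,3], ![0,2,7,8,4], ![0,3,8,9,5], ![0,4,9,10,1],
    ![2,1,10,11,7], ![3,2,6,11,8], ![4,3,7,11,9], ![5,4,8,11,10], ![1,5,9,11,6],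
    ![10,9,8,7,6]]

/-- `lf v i` is the index of the triangle `(v, nbr v i, nbr v (i+1))` -/
def lf : Fin 12 → Fin 5 → Fin 20 :=
  ![![0,1,2,3,4], ![4,9,10,5,0], ![0,5,11,6,1], ![1,6,12,7,2], ![2,7,13,8,3], ![3,8,14,9,4],
    ![5,10,15,16,11], ![6,11,16,17,12], ![7,12,17,18,13], ![8,13,18,19,14], ![9,14,19,15,10],
    ![19,18,17,16,15]]

theorem lf_spec : ∀ v i, ∃ r, face (lf v i) r = v ∧ face (lf v i) (r+1) = nbr v i ∧
    face (lf v i) (r+2) = nbr v (i+1) := by decide

theorem face_spec : ∀ T r, ∃ i, lf (face T r) i = T ∧ nbr (face T r) i = face T (r+1) ∧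
    nbr (face T r) (i+1) = face T (r+2) := by decide

theorem nbr_symm : ∀ v i, ∃ j, nbr (nbr v i) j = v ∧ nbr (nbr v i) (j+1) = nbr v (i-1) ∧
    nbr (nbr v i) (j-1) = nbr v (i+1) := by decide

/-! ### Polytopes in `ℝ³` -/

/-- A presentation of the dodecahedron: `P` is the convex hull of twenty points `v T` and the
intersection of twelve half-spaces `n i · x ≤ b i`, and the point `v T` lies on the `i`-th boundary
plane exactly when `i` is one of the three facets of `T`. -/
def IsPres (P : Set (Fin 3 → ℝ)) (v : Fin 20 → Fin 3 → ℝ) (n : Fin 12 → Fin 3 → ℝ)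
    (b : Fin 12 → ℝ) : Prop :=
  P = convexHull ℝ (Set.range v) ∧ P = {x | ∀ i, n i ⬝ᵥ x ≤ b i} ∧
    ∀ T i, n i ⬝ᵥ v T = b i ↔ ∃ r, face T r = i

/-- `P` is a realization of the dodecahedron -/
def IsDodecahedron (P : Set (Fin 3 → ℝ)) : Prop := ∃ v n b, IsPres P v n b

/-- homogeneous coordinates -/
def hat (x : Fin 3 → ℝ) : Fin 4 → ℝ := ![x 0, x 1, x 2, 1]

/-- `Q` is the image of `P` under a projective transformation with no point of `P` at infinity -/
def ProjStep (P Q : Set (Fin 3 → ℝ)) : Prop :=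
  ∃ M : Matrix (Fin 4) (Fin 4) ℝ, M.det ≠ 0 ∧ (∀ x ∈ P, (M.mulVec (hat x)) 3 ≠ 0) ∧
    Q = (fun x (j : Fin 3) => (M.mulVec (hat x)) j.castSucc / (M.mulVec (hat x)) 3) '' P

/-- `P` and `Q` are realizations with the same (labelled) outer facet normals -/
def NormalStep (P Q : Set (Fin 3 → ℝ)) : Prop :=
  ∃ v n b v' b', IsPres P v n b ∧ IsPres Q v' n b'

/-- chains of projective and normal transformations through realizations -/
def PN : Set (Fin 3 → ℝ) → Set (Fin 3 → ℝ) → Prop :=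
  Relation.ReflTransGen fun P Q =>
    IsDodecahedron P ∧ IsDodecahedron Q ∧ (ProjStep P Q ∨ NormalStep P Q)

/-! ### Homogeneous configurations of covectors -/

/-- the determinant of the matrix with rows `a, b, c, d` -/
noncomputable def det4 (a b c d : Fin 4 → ℝ) : ℝ := Matrix.det (Matrix.of ![a, b, c, d])

/-- `h` is a positively oriented icosahedral cone configuration and `e` is an interior covector -/
def Good (h : Fin 12 → Fin 4 → ℝ) (e : Fin 4 → ℝ) : Prop :=
  (∀ T l, (∀ r, face T r ≠ l) → 0 < det4 (h (face T 0)) (h (face T 1)) (h (face T 2)) (h l)) ∧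
    ∀ T, 0 < det4 (h (face T 0)) (h (face T 1)) (h (face T 2)) e

/-- the polyhedron of a configuration of covectors -/
def Poly (h : Fin 12 → Fin 4 → ℝ) : Set (Fin 3 → ℝ) := {x | ∀ i, 0 ≤ h i ⬝ᵥ hat x}

/-- the hyperplane at infinity -/
def e4 : Fin 4 → ℝ := ![0, 0, 0, 1]

/-- `P` is one of the polytopes (in the projective class) represented by `h` -/
def Rep (h : Fin 12 → Fin 4 → ℝ) (P : Set (Fin 3 → ℝ)) : Prop :=
  ∃ (e : Fin 4 → ℝ) (A : Matrix (Fin 4) (Fin 4) ℝ), Good h e ∧ A.det ≠ 0 ∧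
    Matrix.vecMul e A = e4 ∧ P = Poly (fun i => Matrix.vecMul (h i) A)

/-! ### The planar picture (Schlegel diagram with outer triangle `face 0 = (0,1,2)`) -/

/-- twice the oriented area -/
def ar (x y : Fin 12 → ℝ) (u v w : Fin 12) : ℝ :=
  (x v - x u) * (y w - y u) - (x w - x u) * (y v - y u)

/-- six times the oriented volume (= `det4` of the rows `(x, y, 1, z)`) -/
def vol (x y z : Fin 12 → ℝ) (a b c d : Fin 12) : ℝ :=
  (x b - x a) * ((y c - y a) * (z d - z a) - (y d - y a) * (z c - z a))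
  - (y b - y a) * ((x c - x a) * (z d - z a) - (x d - x a) * (z c - z a))
  + (z b - z a) * ((x c - x a) * (y d - y a) - (x d - x a) * (y c - y a))

/-- the covectors of a lifted planar configuration -/
def lift (x y z : Fin 12 → ℝ) (v : Fin 12) : Fin 4 → ℝ := ![x v, y v, 1, z v]

/-- the outer triangle is `(0,0), (0,1), (1,0)` -/
def Outer (x y : Fin 12 → ℝ) : Prop :=
  x 0 = 0 ∧ y 0 = 0 ∧ x 1 = 0 ∧ y 1 = 1 ∧ x 2 = 1 ∧ y 2 = 0

/-- the heights vanish on the outer triangle -/
def OuterZ (z : Fin 12 → ℝ) : Prop := z 0 = 0 ∧ z 1 = 0 ∧ z 2 = 0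

/-- all nineteen inner triangles are positively oriented -/
def Pos (x y : Fin 12 → ℝ) : Prop :=
  ∀ T, T ≠ 0 → 0 < ar x y (face T 0) (face T 1) (face T 2)

/-- every vertex lies strictly above the plane of each inner triangle which does not contain it -/
def Convex' (x y z : Fin 12 → ℝ) : Prop :=
  ∀ T, T ≠ 0 → ∀ l, (∀ r, face T r ≠ l) → 0 < vol x y z (face T 0) (face T 1) (face T 2) l

/-- positive symmetric weights on the 27 inner edges -/
def Weights (w : Fin 12 → Fin 12 → ℝ) : Prop :=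
  (∀ u v, w u v = w v u) ∧ ∀ v i, (3 ≤ v ∨ 3 ≤ nbr v i) → 0 < w v (nbr v i)

/-- `g` is in equilibrium at the nine inner vertices -/
def Harm (w : Fin 12 → Fin 12 → ℝ) (g : Fin 12 → ℝ) : Prop :=
  ∀ v, 3 ≤ v → ∑ i, w v (nbr v i) * (g (nbr v i) - g v) = 0

/-- `z` is the Maxwell lifting with stress `w`: the bending at each inner edge is given by `w` -/
def Jump (w : Fin 12 → Fin 12 → ℝ) (x y z : Fin 12 → ℝ) : Prop :=
  ∀ v i, (3 ≤ v ∨ 3 ≤ nbr v i) → vol x y z v (nbr v (i-1)) (nbr v i) (nbr v (i+1)) =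
    w v (nbr v i) * ar x y v (nbr v (i-1)) (nbr v i) * ar x y v (nbr v i) (nbr v (i+1))

/-- the point `(X, Y)` is in the interior of the triangle `T` -/
def InTri (x y : Fin 12 → ℝ) (T : Fin 20) (X Y : ℝ) : Prop :=
  ∀ r : Fin 3, 0 < (x (face T (r+1)) - x (face T r)) * (Y - y (face T r)) -
    (X - x (face T r)) * (y (face T (r+1)) - y (face T r))

/-- different inner triangles have disjoint interiors -/
def Disj (x y : Fin 12 → ℝ) : Prop :=
  ∀ T T', T ≠ 0 → T' ≠ 0 → T ≠ T' → ∀ X Y, InTri x y T X Y → ¬ InTri x y T' X Y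

end Pool.Agent.E8helper49.DD
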