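import Pool.Agent.E8helper49.DD.Stm

/-! Project DD: pieces LIFT, FRAME, TRANS. -/

namespace Pool.Agent.E8helper49.DD

theorem det4_lift (x y z : Fin 12 → ℝ) (a b c d : Fin 12) :
    det4 (lift x y z a) (lift x y z b) (lift x y z c) (lift x y z d) = vol x y z a b c d := by
  unfold det4 lift vol
  rw [Matrix.det_succ_row_zero]
  simp [Fin.sum_univ_succ, Matrix.det_fin_three, Matrix.submatrix, Fin.succAbove]
  ring

/-- `det4` is linear in the last row -/
noncomputable def lastLin (a b c : Fin 4 → ℝ) : (Fin 4 → ℝ) →ₗ[ℝ] ℝ :=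
  (Matrix.detRowAlternating (R := ℝ) (n := Fin 4)).toMultilinearMap.toLinearMap ![a, b, c, 0] 3

theorem lastLin_apply (a b c d : Fin 4 → ℝ) : lastLin a b c d = det4 a b c d := by
  unfold lastLin det4
  rw [MultilinearMap.toLinearMap_apply]
  change Matrix.det _ = _
  congr 1
  ext i j
  fin_cases i <;> simp [Function.update]

theorem det4_eq_zero (a b c : Fin 4 → ℝ) (r : Fin 3) : det4 a b c (![a, b, c] r) = 0 := by
  unfold det4
  fin_cases r
  · exact Matrix.det_zero_of_row_eq (i := 0) (j := 3) (by decide) (by ext j; simp)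
  · exact Matrix.det_zero_of_row_eq (i := 1) (j := 3) (by decide) (by ext j; simp)
  · exact Matrix.det_zero_of_row_eq (i := 2) (j := 3) (by decide) (by ext j; simp)

theorem t_LIFT : S_LIFT := by
  intro x y z ho hoz hp hc hz
  have hall : ∀ T l, (∀ r, face T r ≠ l) →
      0 < vol x y z (face T 0) (face T 1) (face T 2) l := by
    intro T l hl
    by_cases hT : T = 0
    · subst hT
      have h3 : 3 ≤ l := by
        revert hl
        revert l
        decide
      have h4 := hz l h3
      obtain ⟨o1, o2, o3, o4, o5, o6⟩ := ho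
      obtain ⟨z1, z2, z3⟩ := hoz
      simp only [face, Matrix.cons_val_zero, Matrix.cons_val_one, Matrix.cons_val]
      unfold vol
      rw [o1, o2, o3, o4, o5, o6, z1, z2, z3]
      linarith
    · exact hc T hT l hl
  have hG : ∀ T l, (∀ r, face T r ≠ l) → 0 < det4 (lift x y z (face T 0))
      (lift x y z (face T 1)) (lift x y z (face T 2)) (lift x y z l) := by
    intro T l hl
    rw [det4_lift]
    exact hall T l hl
  refine ⟨∑ l, lift x y z l, hG, ?_⟩
  intro T
  rw [← lastLin_apply, map_sum]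
  have hex : ∀ T, ∃ l : Fin 12, ∀ r, face T r ≠ l := by decide
  obtain ⟨l, hl⟩ := hex T
  refine Finset.sum_pos' (fun i _ => ?_) ⟨l, Finset.mem_univ _, ?_⟩
  · rw [lastLin_apply]
    by_cases hi : ∀ r, face T r ≠ i
    · exact (hG T i hi).le
    · push Not at hi
      obtain ⟨r, rfl⟩ := hi
      have := det4_eq_zero (lift x y z (face T 0)) (lift x y z (face T 1)) (lift x y z (face T 2)) r
      fin_cases r
      · exact this.ge
      · exact this.ge
      · exact this.ge
  · rw [lastLin_apply]
    exact hG T l hl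

theorem t_FRAME : S_FRAME := by
  intro h e hg
  have hne : e ≠ 0 := by
    rintro rfl
    have := hg.2 0
    rw [← lastLin_apply, map_zero] at this
    exact lt_irrefl _ this
  obtain ⟨j, hj⟩ := Function.ne_iff.1 hne
  -- the matrix whose columns `j` and `3` are exchanged after scaling
  have hdual : ∃ B : Matrix (Fin 4) (Fin 4) ℝ, B.det ≠ 0 ∧ Matrix.vecMul e4 B = e := by
    let B0 : Matrix (Fin 4) (Fin 4) ℝ := Matrix.updateRow 1 j e
    have hB0 : B0.det = e j := by
      have := Matrix.cramer_transpose_apply (1 : Matrix (Fin 4) (Fin 4) ℝ) e j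
      rw [Matrix.transpose_one, Matrix.cramer_one] at this
      simpa [B0] using this.symm
    let σ : Equiv.Perm (Fin 4) := Equiv.swap j 3
    refine ⟨B0.submatrix σ id, ?_, ?_⟩
    · rw [Matrix.det_permute]
      have : ((Equiv.Perm.sign σ : ℤ) : ℝ) ≠ 0 := by
        rcases Int.units_eq_one_or (Equiv.Perm.sign σ) with h | h <;> simp [h]
      exact mul_ne_zero this (by rw [hB0]; exact hj)
    · funext k
      simp [Matrix.vecMul, dotProduct, Fin.sum_univ_succ, e4, B0, σ, Matrix.updateRow_apply]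
  obtain ⟨B, hB, hBe⟩ := hdual
  refine ⟨B⁻¹, ?_, ?_⟩
  · rw [Matrix.det_nonsing_inv]
    simpa using hB
  · rw [← hBe, Matrix.vecMul_vecMul, Matrix.mul_nonsing_inv _ (isUnit_iff_ne_zero.2 hB),
      Matrix.vecMul_one]

theorem det4_mul (a b c d : Fin 4 → ℝ) (A : Matrix (Fin 4) (Fin 4) ℝ) :
    det4 (Matrix.vecMul a A) (Matrix.vecMul b A) (Matrix.vecMul c A) (Matrix.vecMul d A) =
      det4 a b c d * A.det := by
  unfold det4
  rw [← Matrix.det_mul]
  congr 1
  ext i j
  fin_cases i <;> rfl

theorem det4_smul (a b c d : Fin 4 → ℝ) (s t u v : ℝ) :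
    det4 (s • a) (t • b) (u • c) (v • d) = s * t * u * v * det4 a b c d := by
  unfold det4
  rw [Matrix.det_succ_row_zero, Matrix.det_succ_row_zero]
  simp [Fin.sum_univ_succ, Matrix.det_fin_three, Matrix.submatrix, Fin.succAbove]
  ring

theorem t_TRANS : S_TRANS := by
  intro h q A s hA hs hq P hr
  obtain ⟨e, A0, hg, hA0, he, rfl⟩ := hr
  have hAu : IsUnit A.det := isUnit_iff_ne_zero.2 hA.ne'
  refine ⟨Matrix.vecMul e A, A⁻¹ * A0, ⟨?_, ?_⟩, ?_, ?_, ?_⟩
  · intro T l hl
    rw [hq, hq, hq, hq, det4_smul, det4_mul]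
    have h1 := hg.1 T l hl
    have := hs (face T 0); have := hs (face T 1); have := hs (face T 2); have := hs l
    positivity
  · intro T
    have h1 := hg.2 T
    have h2 : Matrix.vecMul e A = (1:ℝ) • Matrix.vecMul e A := (one_smul _ _).symm
    rw [hq, hq, hq, h2, det4_smul, det4_mul]
    have := hs (face T 0); have := hs (face T 1); have := hs (face T 2)
    positivity
  · rw [Matrix.det_mul, Matrix.det_nonsing_inv]
    exact mul_ne_zero (by simpa using hA.ne') hA0
  · rw [Matrix.vecMul_vecMul, ← Matrix.mul_assoc, Matrix.mul_nonsing_inv _ hAu, Matrix.one_mul, he]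
  · ext x
    simp only [Poly, Set.mem_setOf_eq]
    refine forall_congr' fun i => ?_
    rw [hq i, Matrix.smul_vecMul, Matrix.vecMul_vecMul, ← Matrix.mul_assoc,
      Matrix.mul_nonsing_inv _ hAu, Matrix.one_mul, smul_dotProduct, smul_eq_mul]
    exact (mul_nonneg_iff_of_pos_left (hs i)).symm

end Pool.Agent.E8helper49.DD
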