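import Pool.Agent.E8helper49.DD.Asm2
import Pool.Agent.E8helper49.DD.Small
import Pool.Agent.E8helper14.DD.Count
import Pool.Agent.E8helper14.DD.Disj
import Pool.Agent.E8helper94.DD.Tutte
import Pool.Agent.E8helper23.DD.Harm
import Pool.Agent.E8helper23.DD.Proj
import Pool.Agent.E8helper27.DD.Stress
import Pool.Agent.E8helper38.DD.MP
import Pool.Agent.E8helper52.DD.Coc
import Pool.Agent.E8helper52.DD.Uniq
import Pool.Agent.E8helper96.DD.Max
import Pool.Agent.E8helper87.DD.LIM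
import Pool.Agent.E8helper95.DD.NF
import Pool.Agent.E8helper41.DD.Pres
import Pool.Agent.E8helper55.DD.Rep

/-! Project DD: the pieces put together. -/

namespace Pool.Agent.E8helper49.DD

theorem final' (hR : S_REP) (hO : S_OPEN) (P Q : Set (Fin 3 → ℝ)) (hP : IsDodecahedron P)
    (hQ : IsDodecahedron Q) : PN P Q :=
  main t_FRAME Pool.Agent.E8helper41.DD.t_PRES
    (Pool.Agent.E8helper23.DD.t_PROJ Pool.Agent.E8helper41.DD.t_PRES) hO
    Pool.Agent.E8helper38.DD.t_MP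
    (Pool.Agent.E8helper94.DD.t_TUTTE Pool.Agent.E8helper38.DD.t_MP Pool.Agent.E8helper38.DD.t_A
      Pool.Agent.E8helper14.DD.t_COUNT)
    (Pool.Agent.E8helper23.DD.t_HARM Pool.Agent.E8helper38.DD.t_MP)
    (Pool.Agent.E8helper96.DD.t_MAX Pool.Agent.E8helper52.DD.t_COC)
    Pool.Agent.E8helper52.DD.t_UNIQ Pool.Agent.E8helper27.DD.t_STRESS
    Pool.Agent.E8helper87.DD.t_LIM Pool.Agent.E8helper14.DD.t_DISJ Pool.Agent.E8helper14.DD.t_TOP
    t_LIFT Pool.Agent.E8helper95.DD.t_NF t_TRANS hR P Q hP hQ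

theorem final (P Q : Set (Fin 3 → ℝ)) (hP : IsDodecahedron P) (hQ : IsDodecahedron Q) :
    PN P Q :=
  final' Pool.Agent.E8helper55.DD.t_REP Pool.Agent.E8helper55.DD.t_OPEN P Q hP hQ

end Pool.Agent.E8helper49.DD
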