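import Pool.Agent.E8helper49.DD.Defs

/-! Statements of the pieces of project DD (MP_bfbd14_co). -/

open Set

namespace Pool.Agent.E8helper49.DD

/-! ### Tutte's theorem for the icosahedral graph -/

/-- maximum principle -/
def S_MP : Prop := ∀ (w : Fin 12 → Fin 12 → ℝ) (g : Fin 12 → ℝ) (M : ℝ), Weights w → Harm w g →
  (∀ v, ¬ 3 ≤ v → g v ≤ M) → ∀ v, g v ≤ M

/-- no inner vertex is degenerate -/
def S_A : Prop := ∀ (w : Fin 12 → Fin 12 → ℝ) (g : Fin 12 → ℝ), Weights w → Harm w g →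
  ¬ (g 0 = g 1 ∧ g 1 = g 2) → ∀ v, 3 ≤ v → (∃ i, g (nbr v i) < g v) ∧ ∃ i, g v < g (nbr v i)

/-- sign change count -/
def S_COUNT : Prop := ∀ (α : Type) [LinearOrder α] (g : Fin 12 → α), Function.Injective g →
  (∀ v, 3 ≤ v → (∃ i, g (nbr v i) < g v) ∧ ∃ i, g v < g (nbr v i)) →
  ∀ v, 3 ≤ v → (Finset.univ.filter fun i : Fin 5 =>
    (g (nbr v i) < g v ∧ g v < g (nbr v (i+1))) ∨
      (g v < g (nbr v i) ∧ g (nbr v (i+1)) < g v)).card = 2

/-- Tutte's theorem -/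
def S_TUTTE : Prop := ∀ (w : Fin 12 → Fin 12 → ℝ) (x y : Fin 12 → ℝ), Weights w → Outer x y →
  Harm w x → Harm w y → Pos x y

/-- existence, uniqueness and continuity of the equilibrium -/
def S_HARM : Prop := ∀ (w : ℝ → Fin 12 → Fin 12 → ℝ),
  (∀ u v, ContinuousOn (fun t => w t u v) (Icc 0 1)) → (∀ t ∈ Icc (0:ℝ) 1, Weights (w t)) →
  ∀ β : Fin 12 → ℝ, ∃ X : ℝ → Fin 12 → ℝ, (∀ v, ContinuousOn (fun t => X t v) (Icc 0 1)) ∧
    ∀ t ∈ Icc (0:ℝ) 1, (∀ v, ¬ 3 ≤ v → X t v = β v) ∧ Harm (w t) (X t) ∧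
      ∀ g : Fin 12 → ℝ, (∀ v, ¬ 3 ≤ v → g v = β v) → Harm (w t) g → g = X t

/-! ### Maxwell's correspondence -/

/-- cocycles of the disk are coboundaries -/
def S_COC : Prop := ∃ c : Fin 20 → Fin 12 → Fin 12 → ℝ, ∀ J : Fin 12 → Fin 12 → ℝ,
  (∀ u v, J u v = - J v u) → (∀ v, 3 ≤ v → ∑ i, J v (nbr v i) = 0) →
  ∀ v i, (3 ≤ v ∨ 3 ≤ nbr v i) →
    (∑ a, ∑ b, c (lf v i) a b * J a b) - (∑ a, ∑ b, c (lf v (i-1)) a b * J a b) = J v (nbr v i)

/-- the stress of a lifted diagram -/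
def S_STRESS : Prop := ∀ x y z : Fin 12 → ℝ, Pos x y → Convex' x y z →
  ∃ w, Weights w ∧ Harm w x ∧ Harm w y ∧ Jump w x y z

/-- Maxwell liftings exist and depend continuously on the parameter (proof from `S_COC`) -/
def S_MAX : Prop := ∀ (w : ℝ → Fin 12 → Fin 12 → ℝ) (x y : ℝ → Fin 12 → ℝ),
  (∀ u v, ContinuousOn (fun t => w t u v) (Icc 0 1)) →
  (∀ v, ContinuousOn (fun t => x t v) (Icc 0 1)) → (∀ v, ContinuousOn (fun t => y t v) (Icc 0 1)) →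
  (∀ t ∈ Icc (0:ℝ) 1, Weights (w t) ∧ Outer (x t) (y t) ∧ Pos (x t) (y t) ∧
    Harm (w t) (x t) ∧ Harm (w t) (y t)) →
  ∃ z : ℝ → Fin 12 → ℝ, (∀ v, ContinuousOn (fun t => z t v) (Icc 0 1)) ∧
    ∀ t ∈ Icc (0:ℝ) 1, OuterZ (z t) ∧ Jump (w t) (x t) (y t) (z t)

/-- Maxwell liftings are unique -/
def S_UNIQ : Prop := ∀ (w : Fin 12 → Fin 12 → ℝ) (x y z z' : Fin 12 → ℝ), Outer x y → Pos x y →
  OuterZ z → OuterZ z' → Jump w x y z → Jump w x y z' → z = z'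

/-! ### From local to global convexity -/

/-- the closedness step: weak global convexity and strict local convexity give strict global
convexity -/
def S_LIM : Prop := ∀ (w : Fin 12 → Fin 12 → ℝ) (x y z : Fin 12 → ℝ), Weights w → Outer x y →
  Pos x y → Harm w x → Harm w y → (∀ v, 0 ≤ x v ∧ 0 ≤ y v ∧ x v + y v ≤ 1) → Jump w x y z →
  (∀ T, T ≠ 0 → ∀ l, 0 ≤ vol x y z (face T 0) (face T 1) (face T 2) l) → Disj x y → Convex' x y z

def S_DISJ : Prop := ∀ x y z : Fin 12 → ℝ, Pos x y → Convex' x y z → Disj x y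

/-- all inner vertices lie below the lid -/
def S_TOP : Prop := ∀ (w : Fin 12 → Fin 12 → ℝ) (x y z : Fin 12 → ℝ), Weights w → Outer x y →
  Pos x y → Harm w x → Harm w y → OuterZ z → Convex' x y z → ∀ v, 3 ≤ v → z v < 0

/-! ### Homogeneous configurations -/

def S_LIFT : Prop := ∀ x y z : Fin 12 → ℝ, Outer x y → OuterZ z → Pos x y → Convex' x y z →
  (∀ v, 3 ≤ v → z v < 0) → ∃ e, Good (lift x y z) e

/-- normal form -/
def S_NF : Prop := ∀ (h : Fin 12 → Fin 4 → ℝ) (e : Fin 4 → ℝ), Good h e →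
  ∃ x y z : Fin 12 → ℝ, Outer x y ∧ OuterZ z ∧ Pos x y ∧ Convex' x y z ∧
    ∃ (A : Matrix (Fin 4) (Fin 4) ℝ) (s : Fin 12 → ℝ), 0 < A.det ∧ (∀ i, 0 < s i) ∧
      ∀ i, lift x y z i = s i • Matrix.vecMul (h i) A

/-- representation is invariant under positive scalings and positively oriented linear maps -/
def S_TRANS : Prop := ∀ (h q : Fin 12 → Fin 4 → ℝ) (A : Matrix (Fin 4) (Fin 4) ℝ) (s : Fin 12 → ℝ),
  0 < A.det → (∀ i, 0 < s i) → (∀ i, q i = s i • Matrix.vecMul (h i) A) →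
  ∀ P, Rep h P → Rep q P

def S_FRAME : Prop := ∀ (h : Fin 12 → Fin 4 → ℝ) (e : Fin 4 → ℝ), Good h e →
  ∃ A : Matrix (Fin 4) (Fin 4) ℝ, A.det ≠ 0 ∧ Matrix.vecMul e A = e4

/-- good configurations present dodecahedra -/
def S_PRES : Prop := ∀ (h : Fin 12 → Fin 4 → ℝ) (e : Fin 4 → ℝ) (A : Matrix (Fin 4) (Fin 4) ℝ),
  Good h e → A.det ≠ 0 → Matrix.vecMul e A = e4 →
  ∃ v, IsPres (Poly fun i => Matrix.vecMul (h i) A) v
    (fun i j => - Matrix.vecMul (h i) A j.castSucc) (fun i => Matrix.vecMul (h i) A 3)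

/-- every dodecahedron is represented -/
def S_REP : Prop := ∀ P, IsDodecahedron P → ∃ h, Rep h P

/-- two polytopes represented by the same configuration are projectively equivalent
(proof from `S_PRES`) -/
def S_PROJ : Prop := ∀ h P P', Rep h P → Rep h P' → ProjStep P P'

/-- four conjugated normal moves reach a whole neighbourhood -/
def S_OPEN : Prop := ∀ (h : Fin 12 → Fin 4 → ℝ) (e : Fin 4 → ℝ), Good h e →
  ∃ δ > 0, ∀ h' : Fin 12 → Fin 4 → ℝ, (∀ i j, |h' i j - h i j| < δ) →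
    ∃ (k : Fin 5 → Fin 12 → Fin 4 → ℝ) (f : Fin 4 → Fin 4 → ℝ) (t : Fin 4 → Fin 12 → ℝ),
      k 0 = h ∧ k 4 = h' ∧ ∀ m : Fin 4, Good (k m.castSucc) (f m) ∧ Good (k m.succ) (f m) ∧
        ∀ i, k m.succ i = k m.castSucc i + t m i • f m

end Pool.Agent.E8helper49.DD
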